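import Pool.Agent.Helper57.SL.Stmts
import Pool.Agent.Helper11.SI.DL

/-! Row DES of sheet SL: upper and lower bounds for the Euler product. -/

set_option autoImplicit false

namespace Pool.Agent.Helper70.SL

open MeasureTheory Set Filter Topology
open Pool.Agent.Helper57.QZ (Pr tor circ aa Zy Wy Sy Vy Ky pt lin Good zA Pz)
open Pool.Agent.Helper57.SL
open Pool.Agent.Helper11.SI (dl_split dl_sub)

/-- one step of the telescoping sum -/
theorem step (y : ℕ) (hy : 1 ≤ y) :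
    ((y + 1 : ℕ) : ℝ) ^ (-(3 / 2) : ℝ) ≤
      2 / Real.sqrt y - 2 / Real.sqrt ((y + 1 : ℕ) : ℝ) := by
  have hy0 : (1 : ℝ) ≤ y := by exact_mod_cast hy
  obtain ⟨a, ha⟩ : ∃ a : ℝ, a = Real.sqrt y := ⟨_, rfl⟩
  obtain ⟨b, hb⟩ : ∃ b : ℝ, b = Real.sqrt ((y + 1 : ℕ) : ℝ) := ⟨_, rfl⟩
  have ha0 : 0 < a := by rw [ha]; exact Real.sqrt_pos.2 (by linarith)
  have hyc : ((y + 1 : ℕ) : ℝ) = y + 1 := by push_cast; ring
  have hb0 : 0 < b := by rw [hb, hyc]; exact Real.sqrt_pos.2 (by linarith)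
  have ha2 : a ^ 2 = y := by rw [ha]; exact Real.sq_sqrt (by linarith)
  have hb2 : b ^ 2 = y + 1 := by rw [hb, hyc]; exact Real.sq_sqrt (by linarith)
  have hab : a ≤ b := by
    rw [ha, hb, hyc]
    exact Real.sqrt_le_sqrt (by linarith)
  have h1 : ((y + 1 : ℕ) : ℝ) ^ (-(3 / 2) : ℝ) = 1 / b ^ 3 := by
    rw [hyc, ← hb2, ← Real.rpow_natCast b 2, ← Real.rpow_mul hb0.le, one_div,
      ← Real.rpow_natCast b 3, ← Real.rpow_neg hb0.le]
    congr 1
    push_cast
    norm_num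
  rw [← ha, ← hb, h1]
  have h2 : 2 / a - 2 / b = 2 * (b - a) / (a * b) := by
    field_simp
  have h3 : (b - a) * (a + b) = 1 := by nlinarith
  have h4 : 2 * (b - a) / (a * b) = 2 / (a * b * (a + b)) := by
    rw [div_eq_div_iff (by positivity) (by positivity)]
    linear_combination (2 * a * b) * h3
  rw [h2, h4, div_le_div_iff₀ (by positivity) (by positivity)]
  have h5 : a * b * (a + b) ≤ b * b * (b + b) := by
    apply mul_le_mul (mul_le_mul_of_nonneg_right hab hb0.le) (by linarith) (by positivity)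
      (by positivity)
  nlinarith

theorem tail {z y : ℕ} (hz : 1 ≤ z) (h : z ≤ y) :
    ∑ n ∈ Finset.Ioc z y, (n : ℝ) ^ (-(3 / 2) : ℝ) ≤ 2 / Real.sqrt z - 2 / Real.sqrt y := by
  induction y, h using Nat.le_induction with
  | base => simp
  | succ y hy ih =>
    rw [Finset.sum_Ioc_succ_top hy]
    have := step y (hz.trans hy)
    linarith

theorem tailp {z y : ℕ} (hz : 1 ≤ z) (h : z ≤ y) (σ : ℝ) (hσ : 3 / 4 ≤ σ) :
    ∑ p ∈ Nat.primesBelow (y + 1), (if z < p then ((p : ℝ) ^ (-σ)) ^ 2 else 0) ≤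
      2 / Real.sqrt z := by
  have h1 : ∑ p ∈ Nat.primesBelow (y + 1), (if z < p then ((p : ℝ) ^ (-σ)) ^ 2 else 0) ≤
      ∑ n ∈ Finset.Ioc z y, (n : ℝ) ^ (-(3 / 2) : ℝ) := by
    rw [← Finset.sum_filter]
    have h2 : ∀ p ∈ (Nat.primesBelow (y + 1)).filter (fun p => z < p),
        ((p : ℝ) ^ (-σ)) ^ 2 ≤ (p : ℝ) ^ (-(3 / 2) : ℝ) := by
      intro p hp
      simp only [Nat.primesBelow, Finset.mem_filter, Finset.mem_range] at hp
      have hp1 : (1 : ℝ) ≤ p := by exact_mod_cast hp.1.2.one_lt.le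
      rw [← Real.rpow_natCast, ← Real.rpow_mul (by linarith)]
      apply Real.rpow_le_rpow_of_exponent_le hp1
      push_cast
      linarith
    refine (Finset.sum_le_sum h2).trans ?_
    refine Finset.sum_le_sum_of_subset_of_nonneg ?_ fun _ _ _ => by positivity
    intro p hp
    simp only [Nat.primesBelow, Finset.mem_filter, Finset.mem_range] at hp
    rw [Finset.mem_Ioc]
    exact ⟨hp.2, by omega⟩
  have h2 := tail hz h
  have h3 : 0 ≤ 2 / Real.sqrt y := by positivity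
  linarith

theorem st_DES (h : Pool.Agent.Helper57.QZ.ST_DT1) : ST_DES := by
  refine ⟨64, by norm_num, ?_⟩
  intro y z Z t σ e hσ hz hzZ hZy hT
  have hσ1 := hσ.1
  have hzy : z ≤ y := hzZ.trans hZy
  obtain ⟨-, hup, hlow, -⟩ := h y σ (lin y t) (by linarith)
  have haa : ∀ p : ℕ, aa σ p = (p : ℝ) ^ (-σ) := fun p => rfl
  -- the linear part
  have hS : Sy y σ (lin y t) =
      ∑ p ∈ Nat.primesBelow (y + 1), (p : ℝ) ^ (-σ) * Real.cos (t * Real.log p) := by
    rw [← dl_sub y fun p => (p : ℝ) ^ (-σ) * Real.cos (t * Real.log p)]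
    rfl
  have hR : (ts 0 σ y Z (lin y t)).re =
      ∑ p ∈ Nat.primesBelow (y + 1), (if Z < p then (p : ℝ) ^ (-σ) * Real.cos (t * Real.log p)
        else 0) := by
    rw [← dl_sub y fun p => if Z < p then (p : ℝ) ^ (-σ) * Real.cos (t * Real.log p) else 0]
    unfold ts
    rw [Complex.re_sum]
    refine Finset.sum_congr rfl fun p _ => ?_
    by_cases hp : Z < (p : ℕ)
    · rw [if_pos hp, if_pos hp, pow_zero, one_mul, Complex.re_ofReal_mul]
      congr 1
      have e : -(((lin y t p : ℝ) : ℂ) * Complex.I) =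
          ((-(t * Real.log ((p : ℕ) : ℝ)) : ℝ) : ℂ) * Complex.I := by
        simp [lin]
      rw [e, Complex.exp_ofReal_mul_I_re, Real.cos_neg]
    · rw [if_neg hp, if_neg hp]
      simp
  have hF : F1 σ y Z (lin y t) =
      ∑ p ∈ Nat.primesBelow (Z + 1), (p : ℝ) ^ (-σ) * (1 - Real.cos (t * Real.log p)) := by
    have h1 : F1 σ y Z (lin y t) = ∑ p ∈ Nat.primesBelow (y + 1),
        (if p ≤ Z then (p : ℝ) ^ (-σ) * (1 - Real.cos (t * Real.log p)) else 0) := by
      rw [← dl_sub y fun p =>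
        if p ≤ Z then (p : ℝ) ^ (-σ) * (1 - Real.cos (t * Real.log p)) else 0]
      rfl
    rw [h1, dl_split (fun p => if p ≤ Z then (p : ℝ) ^ (-σ) * (1 - Real.cos (t * Real.log p))
      else 0) hZy]
    have h2 : ∑ p ∈ Nat.primesBelow (y + 1), (if Z < p then
        (if p ≤ Z then (p : ℝ) ^ (-σ) * (1 - Real.cos (t * Real.log p)) else 0) else 0) = 0 := by
      refine Finset.sum_eq_zero fun p _ => ?_
      by_cases hp : Z < p
      · rw [if_pos hp, if_neg (by omega)]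
      · rw [if_neg hp]
    rw [h2, add_zero]
    refine Finset.sum_congr rfl fun p hp => ?_
    simp only [Nat.primesBelow, Finset.mem_filter, Finset.mem_range] at hp
    rw [if_pos (by omega)]
  have hsZ := dl_split (fun p => (p : ℝ) ^ (-σ) * Real.cos (t * Real.log p)) hZy
  have hSZ : Sy y σ (lin y t) = S1 σ Z - F1 σ y Z (lin y t) + (ts 0 σ y Z (lin y t)).re := by
    rw [hS, hsZ, hR, hF, S1, ← Finset.sum_sub_distrib]
    congr 1
    refine Finset.sum_congr rfl fun p _ => ?_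
    ring
  have hre := abs_le.1 ((Complex.abs_re_le_norm (ts 0 σ y Z (lin y t))).trans hT)
  refine ⟨by linarith [hre.2], fun hE => ?_⟩
  -- the small primes
  have hEz : E1 σ z 0 t =
      ∑ p ∈ Nat.primesBelow (z + 1), (p : ℝ) ^ (-σ) * (1 - Real.cos (t * Real.log p)) := by
    rw [← dl_sub z fun p => (p : ℝ) ^ (-σ) * (1 - Real.cos (t * Real.log p))]
    unfold E1
    refine Finset.sum_congr rfl fun p _ => ?_
    rw [add_zero]
  have hterm : ∀ p : ℕ, 0 ≤ (p : ℝ) ^ (-σ) := fun p => by positivity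
  have hFE : F1 σ y Z (lin y t) ≤ E1 σ z 0 t + 2 * (S1 σ Z - S1 σ z) := by
    rw [hF, hEz, dl_split (fun p => (p : ℝ) ^ (-σ) * (1 - Real.cos (t * Real.log p))) hzZ]
    have h1 : S1 σ Z - S1 σ z =
        ∑ p ∈ Nat.primesBelow (Z + 1), (if z < p then (p : ℝ) ^ (-σ) else 0) := by
      unfold S1
      rw [dl_split (fun p => (p : ℝ) ^ (-σ)) hzZ]
      ring
    rw [h1, Finset.mul_sum]
    refine add_le_add le_rfl (Finset.sum_le_sum fun p _ => ?_)
    by_cases hp : z < p
    · rw [if_pos hp, if_pos hp]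
      have h2 := Real.neg_one_le_cos (t * Real.log p)
      nlinarith [hterm p]
    · rw [if_neg hp, if_neg hp, mul_zero]
  -- the quadratic part
  have hQ : ∑ p : Pr y, aa σ p ^ 2 * (1 - Real.cos (lin y t p)) ≤
      e + 2 * (2 / Real.sqrt z) := by
    have e1 : ∑ p : Pr y, aa σ p ^ 2 * (1 - Real.cos (lin y t p)) =
        ∑ p ∈ Nat.primesBelow (y + 1), ((p : ℝ) ^ (-σ)) ^ 2 *
          (1 - Real.cos (t * Real.log p)) := by
      rw [← dl_sub y fun p => ((p : ℝ) ^ (-σ)) ^ 2 * (1 - Real.cos (t * Real.log p))]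
      rfl
    rw [e1, dl_split (fun p => ((p : ℝ) ^ (-σ)) ^ 2 * (1 - Real.cos (t * Real.log p))) hzy]
    have e2 : ∑ p ∈ Nat.primesBelow (z + 1), ((p : ℝ) ^ (-σ)) ^ 2 *
        (1 - Real.cos (t * Real.log p)) ≤ E1 σ z 0 t := by
      rw [hEz]
      refine Finset.sum_le_sum fun p hp => ?_
      simp only [Nat.primesBelow, Finset.mem_filter, Finset.mem_range] at hp
      have h1 : (1 : ℝ) ≤ p := by exact_mod_cast hp.2.one_lt.le
      have h2 : 0 ≤ 1 - Real.cos (t * Real.log p) := by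
        have := Real.cos_le_one (t * Real.log p)
        linarith
      have h3 : (p : ℝ) ^ (-σ) ≤ 1 := Real.rpow_le_one_of_one_le_of_nonpos h1 (by linarith)
      have h4 : ((p : ℝ) ^ (-σ)) ^ 2 ≤ (p : ℝ) ^ (-σ) := by nlinarith [hterm p]
      exact mul_le_mul_of_nonneg_right h4 h2
    have e3 : ∑ p ∈ Nat.primesBelow (y + 1),
        (if z < p then ((p : ℝ) ^ (-σ)) ^ 2 * (1 - Real.cos (t * Real.log p)) else 0) ≤
        2 * ∑ p ∈ Nat.primesBelow (y + 1), (if z < p then ((p : ℝ) ^ (-σ)) ^ 2 else 0) := by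
      rw [Finset.mul_sum]
      refine Finset.sum_le_sum fun p _ => ?_
      by_cases hp : z < p
      · rw [if_pos hp, if_pos hp]
        have h2 := Real.neg_one_le_cos (t * Real.log p)
        have h3 : 0 ≤ ((p : ℝ) ^ (-σ)) ^ 2 := by positivity
        nlinarith
      · rw [if_neg hp, if_neg hp, mul_zero]
    have e4 := tailp hz hzy σ hσ1
    linarith
  have e5 : (64 : ℝ) / Real.sqrt z = 32 * (2 / Real.sqrt z) := by ring
  rw [e5]
  linarith [hre.1]

end Pool.Agent.Helper70.SL
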